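import Pool.Agent.Helper89.Vol.Goals

/-!
# Project V36, packet COV2: covering, volumes
-/

set_option autoImplicit false

namespace Pool.Agent.Helper32.Vol.PkCOV2

open MeasureTheory Set Module Pool.Agent.Helper86.Poly Pool.Agent.Helper89.Vol

/-- The hull of at most three points of `E 3` is null. -/
lemma null_hull (x : Fin 6 → E 3) (T : Finset (Fin 6)) (hT : T.card ≤ 3) :
    volume (convexHull ℝ (x '' (T : Set (Fin 6)))) = 0 := by
  classical
  rcases T.eq_empty_or_nonempty with rfl | hne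
  · simp
  have hsub : convexHull ℝ (x '' (T : Set (Fin 6))) ⊆ (affineSpan ℝ (x '' (T : Set (Fin 6))) : Set (E 3)) :=
    convexHull_subset_affineSpan _
  refine measure_mono_null hsub (Measure.addHaar_affineSubspace _ _ ?_)
  intro htop
  have h1 := AffineSubspace.vectorSpan_eq_top_of_affineSpan_eq_top ℝ (E 3) (E 3) htop
  obtain ⟨n, hn⟩ : ∃ n, T.card = n + 1 := ⟨T.card - 1, by have := hne.card_pos; omega⟩
  have h2 := finrank_vectorSpan_image_finset_le ℝ x T hn
  rw [Finset.coe_image, h1, finrank_top] at h2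
  have h3 : finrank ℝ (E 3) = 3 := by simp [E]
  omega

theorem thm (h : G_COV1) : G_COV2 := by
  classical
  intro x D a b h1 h2 h3 h4 h5 h6
  have key := h x D a b h1 h2 h3 h4 h5 h6
  have hsub : convexHull ℝ (range x) ⊆
      (⋃ T ∈ {T : Finset (Fin 6) | T.card ≤ 3}, convexHull ℝ (x '' (T : Set (Fin 6)))) ∪
      ⋃ i, ⋃ j, (if i ≠ b ∧ 0 < D a i ∧ 0 < D j a ∧ 0 < D i j then
        convexHull ℝ (x '' {k | k ≠ i ∧ k ≠ j}) else (∅ : Set (E 3))) := by
    intro p hp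
    by_cases hN : ∃ T : Finset (Fin 6), T.card ≤ 3 ∧ p ∈ convexHull ℝ (x '' (T : Set (Fin 6)))
    · left
      obtain ⟨T, hT, hpT⟩ := hN
      exact mem_iUnion₂.mpr ⟨T, hT, hpT⟩
    · right
      push Not at hN
      obtain ⟨i, j, c1, c2, c3, c4, hmem⟩ := key p hp hN
      refine mem_iUnion.mpr ⟨i, mem_iUnion.mpr ⟨j, ?_⟩⟩
      rw [if_pos ⟨c1, c2, c3, c4⟩]
      exact hmem
  have hnull : volume (⋃ T ∈ {T : Finset (Fin 6) | T.card ≤ 3}, convexHull ℝ (x '' (T : Set (Fin 6)))) = 0 := by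
    rw [measure_biUnion_null_iff (Set.to_countable _)]
    exact fun T hT => null_hull x T hT
  calc volume (convexHull ℝ (range x)) ≤ volume _ := measure_mono hsub
    _ ≤ volume (⋃ T ∈ {T : Finset (Fin 6) | T.card ≤ 3}, convexHull ℝ (x '' (T : Set (Fin 6)))) +
        volume (⋃ i, ⋃ j, (if i ≠ b ∧ 0 < D a i ∧ 0 < D j a ∧ 0 < D i j then
        convexHull ℝ (x '' {k | k ≠ i ∧ k ≠ j}) else (∅ : Set (E 3)))) := measure_union_le _ _
    _ = volume (⋃ i, ⋃ j, (if i ≠ b ∧ 0 < D a i ∧ 0 < D j a ∧ 0 < D i j then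
        convexHull ℝ (x '' {k | k ≠ i ∧ k ≠ j}) else (∅ : Set (E 3)))) := by rw [hnull, zero_add]
    _ ≤ ∑ i, volume (⋃ j, (if i ≠ b ∧ 0 < D a i ∧ 0 < D j a ∧ 0 < D i j then
        convexHull ℝ (x '' {k | k ≠ i ∧ k ≠ j}) else (∅ : Set (E 3)))) := measure_iUnion_fintype_le _ _
    _ ≤ ∑ i, ∑ j, volume (if i ≠ b ∧ 0 < D a i ∧ 0 < D j a ∧ 0 < D i j then
        convexHull ℝ (x '' {k | k ≠ i ∧ k ≠ j}) else (∅ : Set (E 3))) :=
      Finset.sum_le_sum fun i _ => measure_iUnion_fintype_le _ _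
    _ = _ := by
      refine Finset.sum_congr rfl fun i _ => Finset.sum_congr rfl fun j _ => ?_
      split_ifs with hc
      · rfl
      · exact measure_empty

end Pool.Agent.Helper32.Vol.PkCOV2
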